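import Mathlib

/-!
# Places at which a number has no good rational approximations
-/

set_option autoImplicit false

namespace Pool.Agent.V5helper26.BP

open Filter Topology

/-- For infinitely many `s` the number `b ^ s x` has no very good approximations with denominators at
most `Q₀`. -/
theorem good (b : ℕ) (hb : 2 ≤ b) (x : ℝ) (hx : Irrational x) (Q₀ : ℝ) (hQ₀ : 1 ≤ Q₀) (S : ℕ) :
    ∃ s : ℕ, S ≤ s ∧ ∀ Q : ℤ, Q ≠ 0 → |(Q : ℝ)| ≤ Q₀ → ∀ a : ℤ,
      1 / ((b + 1) * Q₀) ≤ |Q * ((b : ℝ) ^ s * x) - a| := by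
  by_contra hcon
  push Not at hcon
  have hb0 : (0 : ℝ) < b := by positivity
  have hb2 : (2 : ℝ) ≤ b := by exact_mod_cast hb
  set η : ℝ := 1 / ((b + 1) * Q₀) with hη
  have hη0 : 0 < η := by positivity
  choose! Q hQ0 hQ1 a ha using hcon
  have hQabs : ∀ s, S ≤ s → 1 ≤ |(Q s : ℝ)| := fun s hs => by exact_mod_cast Int.one_le_abs (hQ0 s hs)
  -- consecutive approximations agree
  have hstep : ∀ s, S ≤ s → (b : ℤ) * a s * Q (s + 1) = a (s + 1) * Q s := by
    intro s hs
    have h1 := ha s hs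
    have h2 := ha (s + 1) (by omega)
    have hq1 := hQ1 s hs
    have hq2 := hQ1 (s + 1) (by omega)
    have h3 : |((b : ℝ) * a s * Q (s + 1) - a (s + 1) * Q s : ℝ)| < 1 := by
      have e1 : ((b : ℝ) * a s * Q (s + 1) - a (s + 1) * Q s : ℝ) =
          (Q (s + 1) * ((b : ℝ) ^ (s + 1) * x) - a (s + 1)) * Q s -
            b * Q (s + 1) * (Q s * ((b : ℝ) ^ s * x) - a s) := by
        rw [pow_succ]; ring
      rw [e1]
      refine lt_of_le_of_lt (abs_sub _ _) ?_
      rw [abs_mul, abs_mul, abs_mul, abs_of_pos hb0]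
      have e2 : (b + 1) * Q₀ * η = 1 := by
        rw [hη]
        field_simp
      calc |(Q (s + 1) : ℝ) * ((b : ℝ) ^ (s + 1) * x) - a (s + 1)| * |(Q s : ℝ)| +
            b * |(Q (s + 1) : ℝ)| * |(Q s : ℝ) * ((b : ℝ) ^ s * x) - a s| <
            η * Q₀ + b * Q₀ * η := by
            have hQs0 : 0 < |(Q s : ℝ)| := by have := hQabs s hs; linarith
            have hQs1 : 0 < |(Q (s + 1) : ℝ)| := by have := hQabs (s + 1) (by omega); linarith
            have t1 : |(Q (s + 1) : ℝ) * ((b : ℝ) ^ (s + 1) * x) - a (s + 1)| * |(Q s : ℝ)| < η * Q₀ :=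
              calc _ < η * |(Q s : ℝ)| := mul_lt_mul_of_pos_right h2 hQs0
                _ ≤ _ := mul_le_mul_of_nonneg_left hq1 hη0.le
            have t2 : b * |(Q (s + 1) : ℝ)| * |(Q s : ℝ) * ((b : ℝ) ^ s * x) - a s| ≤ b * Q₀ * η := by
              gcongr
            linarith
        _ = 1 := by rw [← e2]; ring
    have h4 : |(b : ℤ) * a s * Q (s + 1) - a (s + 1) * Q s| < 1 := by
      have : (((b : ℤ) * a s * Q (s + 1) - a (s + 1) * Q s : ℤ) : ℝ) =
          (b : ℝ) * a s * Q (s + 1) - a (s + 1) * Q s := by push_cast; ring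
      rw [← this, ← Int.cast_abs] at h3
      exact_mod_cast h3
    have h5 := Int.abs_lt_one_iff.1 h4
    linarith
  have hrat : ∀ n : ℕ, ((a (S + n) : ℝ)) / Q (S + n) = (b : ℝ) ^ n * (a S / Q S) := by
    intro n
    induction n with
    | zero => simp
    | succ n ih =>
      have h1 := hstep (S + n) (by omega)
      have h2 : (b : ℝ) * a (S + n) * Q (S + n + 1) = a (S + n + 1) * Q (S + n) := by exact_mod_cast h1
      have q1 : (Q (S + n) : ℝ) ≠ 0 := by exact_mod_cast hQ0 _ (by omega)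
      have q2 : (Q (S + n + 1) : ℝ) ≠ 0 := by exact_mod_cast hQ0 _ (by omega)
      have h3 : (a (S + n + 1) : ℝ) / Q (S + n + 1) = b * (a (S + n) / Q (S + n)) := by
        field_simp
        linarith
      rw [← add_assoc, h3, ih, pow_succ]
      ring
  -- hence `x` is rational
  have hlim : ∀ n : ℕ, |(b : ℝ) ^ S * x - a S / Q S| ≤ η * ((1 / (b : ℝ)) ^ n) := by
    intro n
    have h1 := ha (S + n) (by omega)
    have q1 := hQabs (S + n) (by omega)
    have q0 : (Q (S + n) : ℝ) ≠ 0 := by exact_mod_cast hQ0 _ (by omega)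
    have hbn : (0 : ℝ) < (b : ℝ) ^ n := by positivity
    have e1 : (b : ℝ) ^ S * x - a S / Q S =
        (Q (S + n) * ((b : ℝ) ^ (S + n) * x) - a (S + n)) / Q (S + n) / (b : ℝ) ^ n := by
      have h2 := hrat n
      have e2 : (Q (S + n) * ((b : ℝ) ^ (S + n) * x) - a (S + n)) / Q (S + n) =
          (b : ℝ) ^ n * ((b : ℝ) ^ S * x) - a (S + n) / Q (S + n) := by
        rw [pow_add]
        field_simp
      rw [e2, h2, ← mul_sub, mul_div_cancel_left₀ _ hbn.ne']
    rw [e1, abs_div, abs_div, abs_of_pos hbn, one_div, inv_pow, ← div_eq_mul_inv]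
    apply div_le_div_of_nonneg_right _ hbn.le
    calc |Q (S + n) * ((b : ℝ) ^ (S + n) * x) - a (S + n)| / |(Q (S + n) : ℝ)| ≤
          |Q (S + n) * ((b : ℝ) ^ (S + n) * x) - a (S + n)| := div_le_self (abs_nonneg _) q1
      _ ≤ η := h1.le
  have hzero : |(b : ℝ) ^ S * x - a S / Q S| ≤ 0 := by
    have h1 : Tendsto (fun n : ℕ => η * ((1 / (b : ℝ)) ^ n)) atTop (𝓝 (η * 0)) := by
      apply Tendsto.const_mul
      apply tendsto_pow_atTop_nhds_zero_of_lt_one (by positivity)
      rw [div_lt_one hb0]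
      linarith
    rw [mul_zero] at h1
    exact ge_of_tendsto' h1 hlim
  have h0 : (b : ℝ) ^ S * x - a S / Q S = 0 := abs_eq_zero.1 (le_antisymm hzero (abs_nonneg _))
  apply hx
  refine ⟨(a S : ℚ) / Q S / (b : ℚ) ^ S, ?_⟩
  push_cast
  have hbS : (b : ℝ) ^ S ≠ 0 := by positivity
  rw [div_eq_iff hbS]
  linarith

end Pool.Agent.V5helper26.BP
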