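import Mathlib
import Pool.Agent.V5helper26.PM.ETK

/-!
# A weighted upper bound of Erdős–Turán–Koksma type
-/

set_option autoImplicit false

namespace Pool.Agent.V5helper26.BP

open Finset Filter Topology
open Pool.Agent.H469R2.NK (e norm_e e_add e_zero conj_e)
open Pool.Agent.R485.Mult (e_sum)
open Pool.Agent.V5helper26.PM.ETK (cc major sum_norm_cc)

open Classical in
/-- the weighted upper bound -/
theorem wupper {ι : Type} (S : Finset ι) (w : ι → ℝ) (hw : ∀ n ∈ S, 0 ≤ w n) (W : ℝ)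
    (hW : ∑ n ∈ S, w n ≤ W) (k : ℕ) (t : ι → Fin k → ℝ) (K : ℕ) (hK : 1 ≤ K) (T : ℝ)
    (hT0 : 0 ≤ T)
    (hT : ∀ g : Fin k → ℤ, g ≠ 0 → (∀ j, |g j| ≤ K) →
      ‖∑ n ∈ S, (w n : ℂ) * e (∑ j, (g j : ℝ) * t n j)‖ ≤ T)
    (a ℓ : Fin k → ℝ) (hℓ0 : ∀ j, 0 ≤ ℓ j) (hℓ1 : ∀ j, ℓ j ≤ 1) :
    ∑ n ∈ S.filter (fun n => ∀ j, Int.fract (t n j - a j) < ℓ j), w n ≤
      W * ∏ j, (ℓ j + 2 / √K) + (5 + 2 * Real.log K) ^ k * T := by
  have hKR : (1 : ℝ) ≤ K := by exact_mod_cast hK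
  have hsq : (1 : ℝ) ≤ √K := Real.one_le_sqrt.2 hKR
  have hsq0 : 0 < √(K : ℝ) := by linarith
  have hlogK : 0 ≤ Real.log K := Real.log_nonneg hKR
  have hW0 : 0 ≤ W := (sum_nonneg hw).trans hW
  choose r hr1 hr2 using fun (n : ι) (j : Fin k) => major (ℓ j) (hℓ0 j) (hℓ1 j) K hK (t n j - a j)
  -- the count is at most the sum of the products
  have h1 : ∑ n ∈ S.filter (fun n => ∀ j, Int.fract (t n j - a j) < ℓ j), w n ≤
      ∑ n ∈ S, w n * ∏ j, r n j := by
    rw [sum_filter]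
    refine sum_le_sum fun n hn => ?_
    have h2 : (if ∀ j, Int.fract (t n j - a j) < ℓ j then (1 : ℝ) else 0) =
        ∏ j, (if Int.fract (t n j - a j) < ℓ j then (1 : ℝ) else 0) := by
      by_cases hall : ∀ j, Int.fract (t n j - a j) < ℓ j
      · rw [if_pos hall, prod_congr rfl fun j _ => if_pos (hall j), prod_const_one]
      · rw [if_neg hall]
        push Not at hall
        obtain ⟨j, hj⟩ := hall
        symm
        exact prod_eq_zero (mem_univ j) (if_neg (not_lt.2 hj))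
    have h3 : (if ∀ j, Int.fract (t n j - a j) < ℓ j then w n else 0) =
        w n * (if ∀ j, Int.fract (t n j - a j) < ℓ j then (1 : ℝ) else 0) := by
      split_ifs <;> ring
    rw [h3, h2]
    apply mul_le_mul_of_nonneg_left _ (hw n hn)
    refine prod_le_prod (fun j _ => ?_) fun j _ => hr2 n j
    split_ifs <;> norm_num
  refine h1.trans ?_
  set H := Fintype.piFinset (fun _ : Fin k => Icc (-(K : ℤ)) K) with hH
  set c : Fin k → ℤ → ℂ := fun j h => cc (ℓ j) (1 / √K) (2 / √K) h with hc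
  have h3 : ((∑ n ∈ S, w n * ∏ j, r n j : ℝ) : ℂ) =
      ∑ g ∈ H, (∏ j, c j (g j)) * e (-∑ j, (g j : ℝ) * a j) *
        ∑ n ∈ S, (w n : ℂ) * e (∑ j, (g j : ℝ) * t n j) := by
    push_cast
    have h4 : ∀ n ∈ S, (w n : ℂ) * ∏ j, (r n j : ℂ) =
        ∑ g ∈ H, (∏ j, c j (g j)) * e (-∑ j, (g j : ℝ) * a j) *
          ((w n : ℂ) * e (∑ j, (g j : ℝ) * t n j)) := by
      intro n _
      rw [prod_congr rfl fun j _ => hr1 n j, prod_univ_sum, mul_sum]
      refine sum_congr rfl fun g _ => ?_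
      rw [prod_mul_distrib]
      have h5 : ∏ j, e (((g j : ℤ) : ℝ) * (t n j - a j)) =
          e (-∑ j, (g j : ℝ) * a j) * e (∑ j, (g j : ℝ) * t n j) := by
        rw [← e_add, ← e_sum]
        congr 1
        rw [← sum_neg_distrib, ← sum_add_distrib]
        exact sum_congr rfl fun j _ => by ring
      rw [h5]
      ring
    rw [sum_congr rfl h4, sum_comm]
    refine sum_congr rfl fun g _ => ?_
    rw [mul_sum]
  have h5 : ∑ n ∈ S, w n * ∏ j, r n j ≤ ‖((∑ n ∈ S, w n * ∏ j, r n j : ℝ) : ℂ)‖ := by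
    rw [Complex.norm_real]
    exact le_abs_self _
  refine h5.trans ?_
  rw [h3]
  have h6 : ∀ g ∈ H, ‖(∏ j, c j (g j)) * e (-∑ j, (g j : ℝ) * a j) *
      ∑ n ∈ S, (w n : ℂ) * e (∑ j, (g j : ℝ) * t n j)‖ ≤
      (if g = 0 then W * ∏ j, (ℓ j + 2 / √K) else 0) + (∏ j, ‖c j (g j)‖) * T := by
    intro g hg
    rw [norm_mul, norm_mul, norm_e, mul_one, norm_prod]
    have hp0 : 0 ≤ ∏ j, ‖c j (g j)‖ := prod_nonneg fun _ _ => norm_nonneg _
    by_cases hg0 : g = 0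
    · rw [if_pos hg0]
      have h7 : ∏ j, ‖c j (g j)‖ = ∏ j, (ℓ j + 2 / √K) := by
        refine prod_congr rfl fun j _ => ?_
        rw [hg0]
        simp only [hc, Pi.zero_apply]
        unfold cc
        rw [if_pos rfl, Complex.norm_real, Real.norm_eq_abs, abs_of_nonneg]
        have := hℓ0 j
        positivity
      have h8 : ‖∑ n ∈ S, (w n : ℂ) * e (∑ j, (g j : ℝ) * t n j)‖ ≤ W := by
        refine (norm_sum_le _ _).trans (le_trans (le_of_eq (sum_congr rfl fun m hm => ?_)) hW)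
        rw [norm_mul, norm_e, mul_one, Complex.norm_real, Real.norm_eq_abs, abs_of_nonneg (hw m hm)]
      have h9 : (∏ j, ‖c j (g j)‖) * ‖∑ n ∈ S, (w n : ℂ) * e (∑ j, (g j : ℝ) * t n j)‖ ≤
          (∏ j, (ℓ j + 2 / √K)) * W := by
        rw [h7] at hp0 ⊢
        exact mul_le_mul_of_nonneg_left h8 hp0
      have h10 : 0 ≤ (∏ j, ‖c j (g j)‖) * T := mul_nonneg hp0 hT0
      linarith
    · rw [if_neg hg0, zero_add]
      apply mul_le_mul_of_nonneg_left _ hp0
      refine hT g hg0 fun j => ?_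
      have := (Fintype.mem_piFinset.1 hg) j
      rw [mem_Icc] at this
      exact abs_le.2 this
  refine (norm_sum_le _ _).trans ((sum_le_sum h6).trans ?_)
  rw [sum_add_distrib, ← sum_mul]
  have h7 : ∑ g ∈ H, (if g = 0 then W * ∏ j, (ℓ j + 2 / √K) else 0) ≤
      W * ∏ j, (ℓ j + 2 / √K) := by
    rw [sum_ite_eq' H 0]
    split_ifs
    · exact le_rfl
    · refine mul_nonneg hW0 (prod_nonneg fun j _ => ?_)
      have := hℓ0 j
      positivity
  have h8 : ∑ g ∈ H, ∏ j, ‖c j (g j)‖ ≤ (5 + 2 * Real.log K) ^ k := by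
    have h9 := prod_univ_sum (fun _ : Fin k => Icc (-(K : ℤ)) K) (fun j h => ‖c j h‖)
    rw [hH, ← h9]
    calc ∏ j, ∑ h ∈ Icc (-(K : ℤ)) K, ‖c j h‖ ≤ ∏ _j : Fin k, (5 + 2 * Real.log K) := by
          refine prod_le_prod (fun j _ => sum_nonneg fun _ _ => norm_nonneg _) fun j _ => ?_
          exact sum_norm_cc (ℓ j) (hℓ0 j) (hℓ1 j) K hK
      _ = _ := by rw [prod_const, card_univ, Fintype.card_fin]
  have := mul_le_mul_of_nonneg_right h8 hT0
  linarith

end Pool.Agent.V5helper26.BP
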