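import Mathlib
import Pool.Agent.V5helper26.BP.WUpper

/-!
# Windows of digits without a given block
-/

set_option autoImplicit false

namespace Pool.Agent.V5helper26.BP

open Finset Filter Topology
open Pool.Agent.H469R2.NK (e norm_e e_add e_zero conj_e)

lemma digit_mod (N R J t : ℕ) (ht : t < J) : N % R ^ J / R ^ t % R = N / R ^ t % R := by
  rw [← Nat.mod_mul_right_div_self, ← Nat.mod_mul_right_div_self, ← pow_succ]
  congr 1
  exact Nat.mod_mod_of_dvd _ (pow_dvd_pow _ ht)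

/-- the windows without the block `W` -/
def avoid (R r J : ℕ) (W : Fin r → ℕ) : Finset (Fin r → ℕ) :=
  (Fintype.piFinset (fun _ => range (R ^ J))).filter
    (fun N => ∀ t ∈ range J, ∃ j, N j / R ^ t % R ≠ W j)

lemma card_avoid (R r : ℕ) (hR : 1 ≤ R) (W : Fin r → ℕ) (hW : ∀ j, W j < R) (J : ℕ) :
    (avoid R r J W).card ≤ (R ^ r - 1) ^ J := by
  classical
  induction J with
  | zero =>
    rw [pow_zero]
    refine (card_filter_le _ _).trans ?_
    rw [Fintype.card_piFinset]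
    simp
  | succ J ih =>
    have hmem : ∀ N ∈ avoid R r (J + 1) W, ((fun j => N j % R ^ J, fun j => N j / R ^ J) :
        (Fin r → ℕ) × (Fin r → ℕ)) ∈ avoid R r J W ×ˢ (Fintype.piFinset (fun _ => range R)).erase W := by
      intro N hN
      rw [avoid, mem_filter, Fintype.mem_piFinset] at hN
      have hlt : ∀ j, N j < R ^ (J + 1) := fun j => mem_range.1 (hN.1 j)
      have hlt2 : ∀ j, N j / R ^ J < R := fun j => by
        rw [Nat.div_lt_iff_lt_mul (by positivity)]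
        have := hlt j
        rw [pow_succ] at this
        linarith [mul_comm (R ^ J) R]
      rw [mem_product]
      constructor
      · rw [avoid, mem_filter, Fintype.mem_piFinset]
        refine ⟨fun j => mem_range.2 (Nat.mod_lt _ (by positivity)), fun t ht => ?_⟩
        obtain ⟨j, hj⟩ := hN.2 t (mem_range.2 (by have := mem_range.1 ht; omega))
        refine ⟨j, ?_⟩
        rw [digit_mod _ _ _ _ (mem_range.1 ht)]
        exact hj
      · rw [mem_erase, Fintype.mem_piFinset]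
        refine ⟨fun h => ?_, fun j => mem_range.2 (hlt2 j)⟩
        obtain ⟨j, hj⟩ := hN.2 J (mem_range.2 (Nat.lt_succ_self J))
        apply hj
        rw [Nat.mod_eq_of_lt (hlt2 j)]
        exact congrFun h j
    have hinj : Set.InjOn (fun N : Fin r → ℕ => ((fun j => N j % R ^ J, fun j => N j / R ^ J) :
        (Fin r → ℕ) × (Fin r → ℕ))) (avoid R r (J + 1) W : Set (Fin r → ℕ)) := by
      intro N _ N' _ h
      simp only [Prod.mk.injEq] at h
      funext j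
      have h1 := congrFun h.1 j
      have h2 := congrFun h.2 j
      rw [← Nat.div_add_mod (N j) (R ^ J), ← Nat.div_add_mod (N' j) (R ^ J), h1, h2]
    have h1 := card_le_card_of_injOn _ hmem hinj
    refine h1.trans ?_
    rw [card_product, pow_succ]
    refine Nat.mul_le_mul ih ?_
    have hWm : W ∈ Fintype.piFinset (fun _ : Fin r => range R) := by
      rw [Fintype.mem_piFinset]
      exact fun j => mem_range.2 (hW j)
    rw [card_erase_of_mem hWm, Fintype.card_piFinset]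
    simp

/-- the window of `k J` digits after the `s`-th digit, as a number -/
noncomputable def win (b k s J : ℕ) (z : ℝ) : ℕ :=
  (⌊(b : ℝ) ^ (s + k * J) * z⌋ % (((b ^ k) ^ J : ℕ) : ℤ)).toNat

lemma floor_div (b : ℕ) (hb : 1 ≤ b) (n m : ℕ) (z : ℝ) :
    ⌊(b : ℝ) ^ (n + m) * z⌋ / ((b ^ m : ℕ) : ℤ) = ⌊(b : ℝ) ^ n * z⌋ := by
  have h1 := Int.floor_div_natCast ((b : ℝ) ^ (n + m) * z) (b ^ m)
  rw [← h1]
  congr 1
  push_cast
  rw [pow_add]
  have : (b : ℝ) ^ m ≠ 0 := by positivity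
  field_simp

lemma win_cast (b k s J : ℕ) (hb : 1 ≤ b) (z : ℝ) :
    ((win b k s J z : ℕ) : ℤ) = ⌊(b : ℝ) ^ (s + k * J) * z⌋ % (((b ^ k) ^ J : ℕ) : ℤ) := by
  unfold win
  rw [Int.toNat_of_nonneg]
  apply Int.emod_nonneg
  positivity

lemma win_lt (b k s J : ℕ) (hb : 1 ≤ b) (z : ℝ) : win b k s J z < (b ^ k) ^ J := by
  have h1 := win_cast b k s J hb z
  have h2 := Int.emod_lt_of_pos ⌊(b : ℝ) ^ (s + k * J) * z⌋
    (show (0 : ℤ) < (((b ^ k) ^ J : ℕ) : ℤ) by positivity)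
  rw [← h1] at h2
  exact_mod_cast h2

/-- the blocks of the window -/
lemma win_digit (b k s J t : ℕ) (hb : 1 ≤ b) (ht : t < J) (z : ℝ) :
    ((win b k s J z / (b ^ k) ^ t % (b ^ k) : ℕ) : ℤ) =
      ⌊(b : ℝ) ^ (s + k * (J - 1 - t) + k) * z⌋ % ((b : ℤ) ^ k) := by
  have e1 : s + k * J = (s + k * (J - 1 - t) + k) + k * t := by
    have : J = (J - 1 - t) + 1 + t := by omega
    conv_lhs => rw [this]
    ring
  have h2 := floor_div b hb (s + k * (J - 1 - t) + k) (k * t) z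
  rw [← e1] at h2
  rw [← h2]
  push_cast
  rw [win_cast b k s J hb]
  push_cast
  set F := ⌊(b : ℝ) ^ (s + k * J) * z⌋
  have hb0 : (0 : ℤ) < b := by exact_mod_cast hb
  -- reduce to divisibility
  have h3 : F % (((b : ℤ) ^ k) ^ J) = F - (((b : ℤ) ^ k) ^ J) * (F / (((b : ℤ) ^ k) ^ J)) := by
    rw [Int.emod_def]
  have h4 : F % (((b : ℤ) ^ k) ^ J) / (((b : ℤ) ^ k) ^ t) =
      F / (((b : ℤ) ^ k) ^ t) - (((b : ℤ) ^ k) ^ (J - t)) * (F / (((b : ℤ) ^ k) ^ J)) := by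
    rw [h3]
    have e2 : ((b : ℤ) ^ k) ^ J = ((b : ℤ) ^ k) ^ t * ((b : ℤ) ^ k) ^ (J - t) := by
      rw [← pow_add]; congr 1; omega
    have e3 : F - ((b : ℤ) ^ k) ^ J * (F / ((b : ℤ) ^ k) ^ J) =
        F + ((b : ℤ) ^ k) ^ t * (-(((b : ℤ) ^ k) ^ (J - t) * (F / ((b : ℤ) ^ k) ^ J))) := by
      conv_lhs => rw [e2]
      conv_rhs => rw [e2]
      ring
    rw [e3, Int.add_mul_ediv_left _ _ (by positivity)]
    ring
  rw [h4]
  have e4 : ((b : ℤ) ^ k) ^ (J - t) = (b : ℤ) ^ k * ((b : ℤ) ^ k) ^ (J - t - 1) := by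
    rw [← pow_succ']; congr 1; omega
  rw [e4, mul_assoc, Int.sub_mul_emod_self_left, ← pow_mul]

/-- the fractional part is near to the left end of the window -/
lemma win_fract (b k s J : ℕ) (hb : 1 ≤ b) (z : ℝ) :
    Int.fract ((b : ℝ) ^ s * z - (win b k s J z : ℝ) / ((b : ℝ) ^ k) ^ J) < 1 / ((b : ℝ) ^ k) ^ J := by
  have hR : (0 : ℝ) < ((b : ℝ) ^ k) ^ J := by positivity
  have h1 := win_cast b k s J hb z
  set F := ⌊(b : ℝ) ^ (s + k * J) * z⌋ with hF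
  have h2 : ((win b k s J z : ℕ) : ℤ) = F - (((b ^ k) ^ J : ℕ) : ℤ) * (F / (((b ^ k) ^ J : ℕ) : ℤ)) := by
    rw [h1, Int.emod_def]
  have h3 : (win b k s J z : ℝ) = F - ((b : ℝ) ^ k) ^ J * ((F / (((b ^ k) ^ J : ℕ) : ℤ) : ℤ) : ℝ) := by
    have : (((win b k s J z : ℕ) : ℤ) : ℝ) = _ := congrArg (Int.cast (R := ℝ)) h2
    push_cast at this
    push_cast
    exact this
  have h4 : (b : ℝ) ^ s * z - (win b k s J z : ℝ) / ((b : ℝ) ^ k) ^ J =
      Int.fract ((b : ℝ) ^ (s + k * J) * z) / ((b : ℝ) ^ k) ^ J +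
        ((F / (((b ^ k) ^ J : ℕ) : ℤ) : ℤ) : ℝ) := by
    have h5 : (b : ℝ) ^ (s + k * J) * z = F + Int.fract ((b : ℝ) ^ (s + k * J) * z) :=
      (Int.floor_add_fract _).symm
    have h6 : (b : ℝ) ^ s * z * ((b : ℝ) ^ k) ^ J = (b : ℝ) ^ (s + k * J) * z := by
      rw [pow_add, pow_mul]; ring
    have h7 : (b : ℝ) ^ s * z = (F + Int.fract ((b : ℝ) ^ (s + k * J) * z)) / ((b : ℝ) ^ k) ^ J := by
      rw [eq_div_iff hR.ne', h6]
      exact h5
    rw [h3, h7, sub_div, mul_div_cancel_left₀ _ hR.ne', add_div]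
    ring
  rw [h4, Int.fract_add_intCast]
  have h5 := Int.fract_nonneg ((b : ℝ) ^ (s + k * J) * z)
  have h6 := Int.fract_lt_one ((b : ℝ) ^ (s + k * J) * z)
  have h7 : Int.fract ((b : ℝ) ^ (s + k * J) * z) / ((b : ℝ) ^ k) ^ J < 1 / ((b : ℝ) ^ k) ^ J :=
    div_lt_div_of_pos_right h6 hR
  refine lt_of_le_of_lt (le_of_eq (Int.fract_eq_self.2 ⟨by positivity, ?_⟩)) h7
  refine lt_of_lt_of_le h7 ?_
  rw [div_le_one hR]
  exact one_le_pow₀ (one_le_pow₀ (by exact_mod_cast hb))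

open Classical in
/-- the total weight of the vectors without the blocks `W` after the place `s` -/
theorem window_bound {ι : Type} (S : Finset ι) (w : ι → ℝ) (hw : ∀ n ∈ S, 0 ≤ w n) (Wt : ℝ)
    (hWt : ∑ n ∈ S, w n ≤ Wt) (b k r s J : ℕ) (hb : 1 ≤ b) (z : ι → Fin r → ℝ) (K : ℕ) (hK : 1 ≤ K)
    (T : ℝ) (hT0 : 0 ≤ T)
    (hT : ∀ g : Fin r → ℤ, g ≠ 0 → (∀ j, |g j| ≤ K) →
      ‖∑ n ∈ S, (w n : ℂ) * e (∑ j, (g j : ℝ) * ((b : ℝ) ^ s * z n j))‖ ≤ T)
    (W : Fin r → ℕ) (hW : ∀ j, W j < b ^ k) (Ex : Finset ι) (hEx : Ex ⊆ S)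
    (hav : ∀ n ∈ Ex, ∀ i : ℕ, s ≤ i → ¬ ∀ j, ⌊(b : ℝ) ^ (i + k) * z n j⌋ % ((b : ℤ) ^ k) = (W j : ℤ)) :
    ∑ n ∈ Ex, w n ≤ (((b ^ k) ^ r - 1 : ℕ) : ℝ) ^ J *
      (Wt * (1 / ((b : ℝ) ^ k) ^ J + 2 / √K) ^ r + (5 + 2 * Real.log K) ^ r * T) := by
  have hKR : (1 : ℝ) ≤ K := by exact_mod_cast hK
  have hlogK : 0 ≤ Real.log K := Real.log_nonneg hKR
  have hWt0 : 0 ≤ Wt := (sum_nonneg hw).trans hWt
  set V : ι → Fin r → ℕ := fun n j => win b k s J (z n j) with hV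
  have hmem : ∀ n ∈ Ex, V n ∈ avoid (b ^ k) r J W := by
    intro n hn
    rw [avoid, mem_filter, Fintype.mem_piFinset]
    refine ⟨fun j => mem_range.2 (win_lt b k s J hb _), fun t ht => ?_⟩
    by_contra hcon
    push Not at hcon
    apply hav n hn (s + k * (J - 1 - t)) (Nat.le_add_right _ _)
    intro j
    rw [← win_digit b k s J t hb (mem_range.1 ht), hcon j]
  have hbox : ∀ N : Fin r → ℕ, ∑ n ∈ Ex.filter (fun n => V n = N), w n ≤
      Wt * (1 / ((b : ℝ) ^ k) ^ J + 2 / √K) ^ r + (5 + 2 * Real.log K) ^ r * T := by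
    intro N
    have hR1 : (1 : ℝ) ≤ ((b : ℝ) ^ k) ^ J := one_le_pow₀ (one_le_pow₀ (by exact_mod_cast hb))
    have h1 := wupper S w hw Wt hWt r (fun n j => (b : ℝ) ^ s * z n j) K hK T hT0 hT
      (fun j => (N j : ℝ) / ((b : ℝ) ^ k) ^ J) (fun _ => 1 / ((b : ℝ) ^ k) ^ J)
      (fun _ => by positivity) (fun _ => by
        rw [div_le_one (by positivity)]
        exact hR1)
    rw [prod_const, card_univ, Fintype.card_fin] at h1
    refine le_trans ?_ h1
    apply sum_le_sum_of_subset_of_nonneg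
    · intro n hn
      rw [mem_filter] at hn
      rw [mem_filter]
      refine ⟨hEx hn.1, fun j => ?_⟩
      rw [← hn.2]
      exact win_fract b k s J hb (z n j)
    · intro n hn _
      exact hw n (mem_filter.1 hn).1
  have h1 : ∑ n ∈ Ex, w n = ∑ N ∈ avoid (b ^ k) r J W, ∑ n ∈ Ex.filter (fun n => V n = N), w n :=
    (sum_fiberwise_of_maps_to hmem _).symm
  rw [h1]
  refine (sum_le_sum fun N _ => hbox N).trans ?_
  rw [sum_const, nsmul_eq_mul]
  apply mul_le_mul_of_nonneg_right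
  · have h2 := card_avoid (b ^ k) r (Nat.one_le_pow _ _ hb) W hW J
    calc ((avoid (b ^ k) r J W).card : ℝ) ≤ ((((b ^ k) ^ r - 1) ^ J : ℕ) : ℝ) := by exact_mod_cast h2
      _ = _ := by rw [Nat.cast_pow]
  · positivity

end Pool.Agent.V5helper26.BP
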