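import Mathlib
import Pool.Agent.V5helper26.BP.Words
import Pool.Agent.V5helper26.BP.Good
import Pool.Agent.V5helper26.PM.Minor
import Pool.Agent.V5helper26.PM.Abs

/-!
# Blocks of digits of the values of polynomials at primes: one block
-/

set_option autoImplicit false

namespace Pool.Agent.V5helper26.BP

open Finset Polynomial Filter Topology
open Pool.Agent.H469R2.NK (e norm_e e_add e_zero conj_e)
open Pool.Agent.R486.PD (Near)
open Pool.Agent.V5helper26.PM (SL minorV e_eq_ee)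

/-- every nontrivial integral combination of the real polynomials `P_1, …, P_r` has a degree between
`1` and `d` and a leading coefficient `u x`, with an integer `u ≠ 0`, `|u| ≤ H ∑ |g_j|` -/
def Leads (x H : ℝ) (d : ℕ) {r : ℕ} (P : Fin r → ℝ[X]) : Prop :=
  ∀ g : Fin r → ℤ, g ≠ 0 →
    1 ≤ (∑ j, C (g j : ℝ) * P j).natDegree ∧ (∑ j, C (g j : ℝ) * P j).natDegree ≤ d ∧
    ∃ u : ℤ, u ≠ 0 ∧ |(u : ℝ)| ≤ H * ∑ j, |(g j : ℝ)| ∧
      (∑ j, C (g j : ℝ) * P j).leadingCoeff = u * x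

/-- constants for large arguments -/
lemma large (r : ℕ) (c : ℝ) (hc : 0 < c) (Wm : ℝ) : ∃ X₁ : ℕ, 1 ≤ X₁ ∧ ∀ N : ℕ, X₁ ≤ N →
    Wm ≤ (N : ℝ) ^ c ∧ Real.log N ≤ (N : ℝ) ^ c ∧ 4 ≤ (N : ℝ) ^ (1 / 16 : ℝ) ∧
      (5 + 2 * Real.log N) ^ r ≤ (N : ℝ) ^ (c / 2) := by
  have hcast : Tendsto (fun N : ℕ => (N : ℝ)) atTop atTop := tendsto_natCast_atTop_atTop
  have h1 : ∀ᶠ N : ℕ in atTop, Wm ≤ (N : ℝ) ^ c :=
    ((tendsto_rpow_atTop hc).comp hcast).eventually (eventually_ge_atTop Wm)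
  have h2 : ∀ᶠ N : ℕ in atTop, Real.log N ≤ (N : ℝ) ^ c := by
    have h := (isLittleO_log_rpow_atTop hc).bound (zero_lt_one)
    filter_upwards [hcast.eventually h, hcast.eventually (eventually_ge_atTop 1)] with N h hN
    rw [one_mul, Real.norm_eq_abs, Real.norm_eq_abs, abs_of_nonneg (Real.log_nonneg hN),
      abs_of_nonneg (by positivity)] at h
    exact h
  have h3 : ∀ᶠ N : ℕ in atTop, 4 ≤ (N : ℝ) ^ (1 / 16 : ℝ) :=
    ((tendsto_rpow_atTop (by norm_num)).comp hcast).eventually (eventually_ge_atTop 4)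
  have h4 : ∀ᶠ N : ℕ in atTop, (5 + 2 * Real.log N) ^ r ≤ (N : ℝ) ^ (c / 2) := by
    have hc2 : 0 < c / 2 := by positivity
    have h := (isLittleO_log_rpow_rpow_atTop (r : ℝ) hc2).bound
      (show (0 : ℝ) < ((7 : ℝ) ^ r)⁻¹ by positivity)
    filter_upwards [hcast.eventually h, hcast.eventually (eventually_ge_atTop (Real.exp 1))] with N h hN
    have hlog : 1 ≤ Real.log N := by
      rw [← Real.log_exp 1]
      exact Real.log_le_log (Real.exp_pos 1) hN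
    have hN0 : (0 : ℝ) ≤ N := Nat.cast_nonneg N
    rw [Real.norm_eq_abs, Real.norm_eq_abs, abs_of_nonneg (by positivity),
      abs_of_nonneg (by positivity), Real.rpow_natCast] at h
    calc (5 + 2 * Real.log N) ^ r ≤ (7 * Real.log N) ^ r :=
          pow_le_pow_left₀ (by linarith) (by linarith) _
      _ = 7 ^ r * Real.log N ^ r := by rw [mul_pow]
      _ ≤ 7 ^ r * (((7 : ℝ) ^ r)⁻¹ * (N : ℝ) ^ (c / 2)) :=
          mul_le_mul_of_nonneg_left h (by positivity)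
      _ = _ := by
        rw [← mul_assoc, mul_inv_cancel₀ (by positivity), one_mul]
  obtain ⟨X₁, hX₁⟩ := eventually_atTop.1 ((h1.and h2).and (h3.and h4))
  refine ⟨max 1 X₁, le_max_left _ _, fun N hN => ?_⟩
  have := hX₁ N (le_trans (le_max_right _ _) hN)
  exact ⟨this.1.1, this.1.2, this.2.1, this.2.2⟩

/-- The exponential sums at a good place. -/
lemma expo {r d : ℕ} (Cf Wf : ℕ → ℕ)
    (hmin : ∀ D : ℕ, 1 ≤ D → ∀ f : ℝ[X], f.natDegree ≤ D → ∀ (N : ℕ) (L : ℝ),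
      Wf D ≤ L → Real.log N ≤ L → L ^ Cf D ≤ N → N / L ≤ ‖SL f N‖ → Near D N (L ^ Cf D) (f.coeff D))
    (Cm : ℕ) (Wm : ℝ) (hCm : ∀ D, D ≤ d → Cf D ≤ Cm) (hWm : ∀ D, D ≤ d → (Wf D : ℝ) ≤ Wm)
    (x H : ℝ) (hH : 1 ≤ H) (P : Fin r → ℝ[X]) (hP : Leads x H d P) (b : ℕ) (hb : 2 ≤ b) (s : ℕ)
    (N : ℕ) (hN : 1 ≤ N) (L : ℝ) (hL1 : 1 ≤ L) (hLW : Wm ≤ L) (hLlog : Real.log N ≤ L)
    (Z : ℝ) (hLZ : L ^ Cm ≤ Z) (hZN : Z ≤ N) (K : ℕ) (Q₀ : ℝ) (hQ₀ : Z * (H * (r * K)) ≤ Q₀)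
    (hQ1 : 1 ≤ Q₀) (hcon : Z * ((b + 1) * Q₀) < N)
    (hgood : ∀ Q : ℤ, Q ≠ 0 → |(Q : ℝ)| ≤ Q₀ → ∀ a : ℤ,
      1 / ((b + 1) * Q₀) ≤ |Q * ((b : ℝ) ^ s * x) - a|)
    (g : Fin r → ℤ) (hg : g ≠ 0) (hgK : ∀ j, |g j| ≤ K) :
    ‖∑ n ∈ Icc 1 N, ((ArithmeticFunction.vonMangoldt n : ℝ) : ℂ) *
      e (∑ j, (g j : ℝ) * ((b : ℝ) ^ s * (P j).eval (n : ℝ)))‖ ≤ N / L := by
  by_contra hbig
  push Not at hbig
  obtain ⟨hd1, hd2, u, hu0, hu1, hu2⟩ := hP g hg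
  set F : ℝ[X] := ∑ j, C (g j : ℝ) * P j with hF
  set D := F.natDegree with hD
  have hb0 : (0 : ℝ) < b := by positivity
  have hbs : ((b : ℝ) ^ s) ≠ 0 := by positivity
  have hNR : (1 : ℝ) ≤ N := by exact_mod_cast hN
  set f : ℝ[X] := C ((b : ℝ) ^ s) * F with hf
  have hfd : f.natDegree ≤ D := natDegree_C_mul_le _ _
  have hfc : f.coeff D = u * ((b : ℝ) ^ s * x) := by
    rw [hf, coeff_C_mul, hD, coeff_natDegree, hu2]
    ring
  have hSL : SL f N = ∑ n ∈ Icc 1 N, ((ArithmeticFunction.vonMangoldt n : ℝ) : ℂ) *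
      e (∑ j, (g j : ℝ) * ((b : ℝ) ^ s * (P j).eval (n : ℝ))) := by
    unfold SL
    refine sum_congr rfl fun n _ => ?_
    rw [← e_eq_ee, hf, hF, eval_mul, eval_C, eval_finset_sum, mul_sum]
    congr 2
    refine sum_congr rfl fun j _ => ?_
    rw [eval_mul, eval_C]
    ring
  rw [← hSL] at hbig
  have hLC : L ^ Cf D ≤ Z := (pow_le_pow_right₀ hL1 (hCm D hd2)).trans hLZ
  obtain ⟨q, hq1, hq2, a, ha⟩ := hmin D hd1 f hfd N L ((hWm D hd2).trans hLW) hLlog (hLC.trans hZN)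
    hbig.le
  rw [hfc] at ha
  have hq1R : (1 : ℝ) ≤ q := by exact_mod_cast hq1
  have hZ1 : 1 ≤ Z := le_trans (one_le_pow₀ hL1) hLC
  have hsum : ∑ j, |(g j : ℝ)| ≤ r * K := by
    calc ∑ j, |(g j : ℝ)| ≤ ∑ _j : Fin r, (K : ℝ) := sum_le_sum fun j _ => by
          have := hgK j
          rw [← Int.cast_abs]
          exact_mod_cast this
      _ = _ := by simp
  have hQ2 : |(((q : ℤ) * u : ℤ) : ℝ)| ≤ Q₀ := by
    push_cast
    rw [abs_mul, abs_of_nonneg (by linarith : (0 : ℝ) ≤ q)]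
    calc (q : ℝ) * |(u : ℝ)| ≤ Z * (H * (r * K)) := by
          apply mul_le_mul (hq2.trans hLC) (hu1.trans (mul_le_mul_of_nonneg_left hsum (by linarith)))
            (abs_nonneg _) (by linarith)
      _ ≤ Q₀ := hQ₀
  have h1 := hgood ((q : ℤ) * u) (mul_ne_zero (by exact_mod_cast (by omega : q ≠ 0)) hu0) hQ2 a
  have h2 : (((q : ℤ) * u : ℤ) : ℝ) * ((b : ℝ) ^ s * x) - a = q * (u * ((b : ℝ) ^ s * x)) - a := by
    push_cast; ring
  rw [h2] at h1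
  have h3 : 1 / ((b + 1) * Q₀) ≤ Z / N := by
    refine h1.trans (ha.trans ?_)
    apply div_le_div₀ (by linarith) hLC (by linarith)
    calc (N : ℝ) = N ^ 1 := (pow_one _).symm
      _ ≤ N ^ D := pow_le_pow_right₀ hNR hd1
  have hpos : 0 < (b + 1) * Q₀ := by positivity
  rw [div_le_div_iff₀ hpos (by linarith)] at h3
  linarith

/-- **One block** -/
theorem one_block (r d : ℕ) : ∃ c C₁ : ℝ, 0 < c ∧ c ≤ 1 / 4 ∧ 1 ≤ C₁ ∧
    ∀ x : ℝ, Irrational x → ∀ H : ℝ, 1 ≤ H → ∀ P : Fin r → ℝ[X], Leads x H d P →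
    ∀ b k : ℕ, 2 ≤ b → 1 ≤ k → ∀ W : Fin r → ℕ, (∀ j, W j < b ^ k) → ∀ N : ℕ, 1 ≤ N →
    ∀ Ex : Finset ℕ, (∀ p ∈ Ex, p.Prime ∧ p ≤ N) →
    (∀ p ∈ Ex, {i : ℕ | ∀ j, ⌊(b : ℝ) ^ (i + k) * (P j).eval (p : ℝ)⌋ % ((b : ℤ) ^ k) =
      (W j : ℤ)}.Finite) →
    (Ex.card : ℝ) ≤ C₁ * H * b * (N : ℝ) ^ (1 - c / (k * (b : ℝ) ^ (k * r) * Real.log b)) := by
  classical
  have hex : ∀ D : ℕ, ∃ C W₀ : ℕ, 1 ≤ D → ∀ f : ℝ[X], f.natDegree ≤ D → ∀ (N : ℕ) (L : ℝ),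
      W₀ ≤ L → Real.log N ≤ L → L ^ C ≤ N → N / L ≤ ‖SL f N‖ → Near D N (L ^ C) (f.coeff D) := by
    intro D
    by_cases hD : 1 ≤ D
    · obtain ⟨C, W₀, h⟩ := minorV D hD
      exact ⟨C, W₀, fun _ => h⟩
    · exact ⟨0, 0, fun h => absurd h hD⟩
  choose Cf Wf hmin using hex
  set Cm : ℕ := ∑ D ∈ range (d + 1), Cf D + 1 with hCm
  set Wm : ℝ := ∑ D ∈ range (d + 1), (Wf D : ℝ) with hWm
  have hCm' : ∀ D, D ≤ d → Cf D ≤ Cm := fun D hD => by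
    have h1 : Cf D ≤ ∑ D ∈ range (d + 1), Cf D :=
      single_le_sum (fun i _ => Nat.zero_le (Cf i)) (mem_range.2 (Nat.lt_succ_of_le hD))
    rw [hCm]
    exact h1.trans (Nat.le_succ _)
  have hWm' : ∀ D, D ≤ d → (Wf D : ℝ) ≤ Wm := fun D hD =>
    single_le_sum (f := fun D => (Wf D : ℝ)) (fun i _ => Nat.cast_nonneg (Wf i))
      (mem_range.2 (Nat.lt_succ_of_le hD))
  have hCmR : (1 : ℝ) ≤ Cm := by rw [hCm]; push_cast; linarith [show (0 : ℝ) ≤ ∑ D ∈ range (d + 1), (Cf D : ℝ) by positivity]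
  set c₃ : ℝ := 1 / (8 * Cm) with hc₃
  have hc₃0 : 0 < c₃ := by positivity
  have hc₃1 : c₃ ≤ 1 / 8 := by
    rw [hc₃]
    apply div_le_div_of_nonneg_left (by norm_num) (by norm_num)
    linarith
  set c₄ : ℝ := c₃ / (4 * (r + 1)) with hc₄
  have hr0 : (0 : ℝ) ≤ r := Nat.cast_nonneg r
  have hc₄0 : 0 < c₄ := by positivity
  have hc₄1 : c₄ ≤ 1 / 32 := by
    rw [hc₄, div_le_iff₀ (by positivity)]
    nlinarith
  have hc₄2 : r * c₄ ≤ c₃ / 2 := by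
    rw [hc₄, ← mul_div_assoc, div_le_iff₀ (by positivity)]
    nlinarith
  obtain ⟨X₁, hX₁, hlarge⟩ := large r c₃ hc₃0 Wm
  set C₀ : ℝ := Real.log 4 + 4 with hC₀
  have hC₀0 : 0 ≤ C₀ := by have := Real.log_nonneg (by norm_num : (1 : ℝ) ≤ 4); linarith
  set C₁ : ℝ := X₁ + 2 * (r + 1) + 2 * (Real.exp 1 * (C₀ * 2 ^ r + 1)) with hC₁
  have hX₁R : (1 : ℝ) ≤ X₁ := by exact_mod_cast hX₁
  have hlast : 0 ≤ 2 * (Real.exp 1 * (C₀ * 2 ^ r + 1)) := by positivity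
  refine ⟨c₄, C₁, hc₄0, by linarith, by linarith, ?_⟩
  intro x hx H hH P hP b k hb hk W hW N hN Ex hEx hfin
  have hNR : (1 : ℝ) ≤ N := by exact_mod_cast hN
  have hN0 : (0 : ℝ) < N := by linarith
  have hb2 : (2 : ℝ) ≤ b := by exact_mod_cast hb
  have hb0 : (0 : ℝ) < b := by linarith
  have hlogb : 1 / 2 ≤ Real.log b := by
    have h1 := Real.log_two_gt_d9
    have h2 := Real.log_le_log (by norm_num) hb2
    linarith
  have hkR : (1 : ℝ) ≤ k := by exact_mod_cast hk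
  have hbkr : (1 : ℝ) ≤ (b : ℝ) ^ (k * r) := one_le_pow₀ (by linarith)
  set Δ : ℝ := k * (b : ℝ) ^ (k * r) * Real.log b with hΔ
  have hΔ1 : 1 / 2 ≤ Δ := by
    rw [hΔ]
    nlinarith [mul_le_mul hkR hbkr (by norm_num) (by linarith : (0 : ℝ) ≤ k)]
  have hΔ0 : 0 < Δ := by linarith
  have hexp1 : c₄ / Δ ≤ 1 / 16 := by
    rw [div_le_iff₀ hΔ0]
    linarith
  have hexp0 : 0 ≤ c₄ / Δ := by positivity
  have hcardN : (Ex.card : ℝ) ≤ N := by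
    have h1 : Ex ⊆ Icc 1 N := fun p hp => mem_Icc.2 ⟨(hEx p hp).1.one_le, (hEx p hp).2⟩
    have h2 := card_le_card h1
    rw [Nat.card_Icc, Nat.add_sub_cancel] at h2
    exact_mod_cast h2
  have hrp1 : (1 : ℝ) ≤ (N : ℝ) ^ (1 - c₄ / Δ) := Real.one_le_rpow hNR (by linarith)
  -- small arguments
  by_cases hNX : N < X₁
  · calc (Ex.card : ℝ) ≤ N := hcardN
      _ ≤ X₁ := by exact_mod_cast hNX.le
      _ ≤ C₁ := by linarith
      _ = C₁ * 1 * 1 * 1 := by ring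
      _ ≤ C₁ * H * b * (N : ℝ) ^ (1 - c₄ / Δ) := by gcongr <;> linarith
  push Not at hNX
  obtain ⟨hl1, hl2, hl3, hl4⟩ := hlarge N hNX
  -- large parameters
  by_cases hbig : (N : ℝ) ^ (1 / 2 : ℝ) ≤ (b + 1) * H * (r + 1)
  · have h1 : (N : ℝ) ^ (c₄ / Δ) ≤ (N : ℝ) ^ (1 / 2 : ℝ) :=
      Real.rpow_le_rpow_of_exponent_le hNR (by linarith)
    have h2 : (b + 1) * H * (r + 1) ≤ 2 * (r + 1) * H * b := by nlinarith [mul_nonneg (by linarith : 0 ≤ H) (by linarith : (0 : ℝ) ≤ r + 1)]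
    have h3 : (N : ℝ) = (N : ℝ) ^ (c₄ / Δ) * (N : ℝ) ^ (1 - c₄ / Δ) := by
      rw [← Real.rpow_add hN0, add_sub_cancel, Real.rpow_one]
    calc (Ex.card : ℝ) ≤ N := hcardN
      _ = (N : ℝ) ^ (c₄ / Δ) * (N : ℝ) ^ (1 - c₄ / Δ) := h3
      _ ≤ (2 * (r + 1) * H * b) * (N : ℝ) ^ (1 - c₄ / Δ) :=
          mul_le_mul_of_nonneg_right (h1.trans (hbig.trans h2)) (by positivity)
      _ ≤ (C₁ * H * b) * (N : ℝ) ^ (1 - c₄ / Δ) := by
          gcongr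
          linarith
  push Not at hbig
  -- the parameters
  set L : ℝ := (N : ℝ) ^ c₃ with hL
  have hL1 : 1 ≤ L := Real.one_le_rpow hNR hc₃0.le
  set Z : ℝ := (N : ℝ) ^ (1 / 8 : ℝ) with hZ
  have hLZ : L ^ Cm ≤ Z := by
    rw [hL, ← Real.rpow_natCast, ← Real.rpow_mul hN0.le, hZ, hc₃]
    apply le_of_eq
    congr 1
    field_simp
  have hZ1 : 1 ≤ Z := Real.one_le_rpow hNR (by norm_num)
  have hZN : Z ≤ N := by
    rw [hZ]
    calc (N : ℝ) ^ (1 / 8 : ℝ) ≤ (N : ℝ) ^ (1 : ℝ) :=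
          Real.rpow_le_rpow_of_exponent_le hNR (by norm_num)
      _ = N := Real.rpow_one _
  have h16 : (1 : ℝ) ≤ (N : ℝ) ^ (1 / 16 : ℝ) := by linarith
  have e8 : (N : ℝ) ^ (1 / 8 : ℝ) = ((N : ℝ) ^ (1 / 16 : ℝ)) ^ 2 := by
    rw [← Real.rpow_natCast, ← Real.rpow_mul hN0.le]; norm_num
  have e4 : (N : ℝ) ^ (1 / 4 : ℝ) = ((N : ℝ) ^ (1 / 16 : ℝ)) ^ 4 := by
    rw [← Real.rpow_natCast, ← Real.rpow_mul hN0.le]; norm_num
  have e2 : (N : ℝ) ^ (1 / 2 : ℝ) = ((N : ℝ) ^ (1 / 16 : ℝ)) ^ 8 := by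
    rw [← Real.rpow_natCast, ← Real.rpow_mul hN0.le]; norm_num
  have e1 : (N : ℝ) = ((N : ℝ) ^ (1 / 16 : ℝ)) ^ 16 := by
    rw [← Real.rpow_natCast, ← Real.rpow_mul hN0.le]; norm_num
  set v : ℝ := (N : ℝ) ^ (1 / 16 : ℝ) with hv
  set K : ℕ := ⌊(N : ℝ) ^ (1 / 4 : ℝ)⌋₊ with hK
  have hK1 : (K : ℝ) ≤ v ^ 4 := by
    rw [← e4]
    exact Nat.floor_le (by positivity)
  have hv4 : (256 : ℝ) ≤ v ^ 4 := by
    calc (256 : ℝ) = 4 ^ 4 := by norm_num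
      _ ≤ v ^ 4 := pow_le_pow_left₀ (by norm_num) hl3 4
  have hK2 : v ^ 4 / 4 ≤ K := by
    have h1 : v ^ 4 < K + 1 := by
      rw [← e4]
      exact Nat.lt_floor_add_one _
    linarith
  have hK3 : 1 ≤ K := by
    have : (1 : ℝ) ≤ K := by linarith
    exact_mod_cast this
  have hsqK : v ^ 2 / 2 ≤ √K := by
    apply Real.le_sqrt_of_sq_le
    have h1 : (v ^ 2 / 2) ^ 2 = v ^ 4 / 4 := by ring
    rw [h1]
    exact hK2
  set Q₀ : ℝ := Z * (H * ((r + 1) * v ^ 4)) with hQ₀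
  have hQ1 : 1 ≤ Q₀ := by
    have h1 : 1 ≤ (r + 1 : ℝ) := by linarith
    have h2 : 1 ≤ (r + 1 : ℝ) * v ^ 4 := one_le_mul_of_one_le_of_one_le h1 (by linarith)
    exact one_le_mul_of_one_le_of_one_le hZ1 (one_le_mul_of_one_le_of_one_le hH h2)
  have hQ2 : Z * (H * (r * K)) ≤ Q₀ := by
    rw [hQ₀]
    have : (r : ℝ) * K ≤ (r + 1) * v ^ 4 := by
      apply mul_le_mul (by linarith) hK1 (Nat.cast_nonneg _) (by linarith)
    gcongr
  have hcon : Z * ((b + 1) * Q₀) < N := by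
    rw [e2] at hbig
    have h1 : Z * ((b + 1) * Q₀) = ((b + 1) * H * (r + 1)) * v ^ 8 := by
      rw [hQ₀, hZ, e8]; ring
    rw [h1]
    have hv8 : 0 < v ^ 8 := by positivity
    calc ((b + 1) * H * (r + 1)) * v ^ 8 < v ^ 8 * v ^ 8 := mul_lt_mul_of_pos_right hbig hv8
      _ = v ^ 16 := by ring
      _ = N := e1.symm
  -- the places
  have hS : ∃ S : ℕ, ∀ p ∈ Ex, ∀ i : ℕ, S ≤ i → ¬ ∀ j, ⌊(b : ℝ) ^ (i + k) * (P j).eval (p : ℝ)⌋ %
      ((b : ℤ) ^ k) = (W j : ℤ) := by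
    have h1 : ∀ p ∈ Ex, ∃ S : ℕ, ∀ i : ℕ, S ≤ i → ¬ ∀ j, ⌊(b : ℝ) ^ (i + k) * (P j).eval (p : ℝ)⌋ %
        ((b : ℤ) ^ k) = (W j : ℤ) := by
      intro p hp
      obtain ⟨M, hM⟩ := (hfin p hp).bddAbove
      refine ⟨M + 1, fun i hi hcon => ?_⟩
      have := hM hcon
      omega
    choose! Sf hSf using h1
    exact ⟨Ex.sup Sf, fun p hp i hi => hSf p hp i ((le_sup hp).trans hi)⟩
  obtain ⟨S, hS⟩ := hS
  obtain ⟨s, hs, hgood⟩ := good b hb x hx Q₀ hQ1 S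
  -- the windows
  set R : ℝ := (b : ℝ) ^ k with hR
  have hR2 : 2 ≤ R := by
    calc (2 : ℝ) ≤ b := hb2
      _ = (b : ℝ) ^ 1 := (pow_one _).symm
      _ ≤ R := pow_le_pow_right₀ (by linarith) hk
  have hlogR : Real.log R = k * Real.log b := by rw [hR, Real.log_pow]
  have hlogR0 : 0 < Real.log R := Real.log_pos (by linarith)
  have hlogN : 0 ≤ Real.log N := Real.log_nonneg hNR
  set J : ℕ := ⌊c₄ * Real.log N / Real.log R⌋₊ with hJ
  have hJ1 : (J : ℝ) ≤ c₄ * Real.log N / Real.log R := Nat.floor_le (by positivity)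
  have hJ2 : c₄ * Real.log N / Real.log R - 1 ≤ J := (Nat.sub_one_lt_floor _).le
  have hRJ : R ^ J ≤ (N : ℝ) ^ c₄ := by
    rw [← Real.rpow_natCast, Real.rpow_def_of_pos (by linarith), Real.rpow_def_of_pos hN0]
    apply Real.exp_le_exp.2
    rw [le_div_iff₀ hlogR0] at hJ1
    linarith [mul_comm (J : ℝ) (Real.log R), mul_comm c₄ (Real.log N)]
  have hRJ0 : 0 < R ^ J := by positivity
  have hRJv : R ^ J ≤ v := by
    refine hRJ.trans ?_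
    rw [hv]
    exact Real.rpow_le_rpow_of_exponent_le hNR (by linarith)
  have hpsi : ∑ n ∈ Icc 1 N, (ArithmeticFunction.vonMangoldt n : ℝ) ≤ C₀ * N := by
    have h1 := Chebyshev.psi_le_const_mul_self hN0.le
    rw [Chebyshev.psi, Nat.floor_natCast] at h1
    refine le_trans (le_of_eq ?_) h1
    apply sum_congr _ fun _ _ => rfl
    ext n; rw [mem_Icc, mem_Ioc]; omega
  have hT0 : 0 ≤ (N : ℝ) / L := by positivity
  have hwin := window_bound (Icc 1 N) (fun n => ArithmeticFunction.vonMangoldt n)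
    (fun _ _ => ArithmeticFunction.vonMangoldt_nonneg) (C₀ * N) hpsi b k r s J (by omega)
    (fun (n : ℕ) j => (P j).eval (n : ℝ)) K hK3 (N / L) hT0
    (fun g hg hgK => expo Cf Wf hmin Cm Wm hCm' hWm' x H hH P hP b hb s N hN L hL1 hl1 hl2 Z hLZ hZN K
      Q₀ hQ2 hQ1 hcon hgood g hg hgK) W hW Ex
    (fun p hp => mem_Icc.2 ⟨(hEx p hp).1.one_le, (hEx p hp).2⟩)
    (fun p hp i hi => hS p hp i (hs.trans hi))
  -- the main term
  have hm1 : 1 / ((b : ℝ) ^ k) ^ J + 2 / √K ≤ 2 / R ^ J := by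
    have h1 : 2 / √(K : ℝ) ≤ 1 / R ^ J := by
      rw [div_le_div_iff₀ (by have : 0 < v ^ 2 / 2 := by positivity
                              linarith) hRJ0]
      have h2 : 4 * v ≤ v ^ 2 := by nlinarith
      linarith
    rw [← hR]
    have h3 : (2 : ℝ) / R ^ J = 1 / R ^ J + 1 / R ^ J := by ring
    rw [h3]
    linarith
  have hm2 : C₀ * N * (1 / ((b : ℝ) ^ k) ^ J + 2 / √K) ^ r ≤ C₀ * N * (2 ^ r / (R ^ J) ^ r) := by
    apply mul_le_mul_of_nonneg_left _ (by positivity)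
    rw [← div_pow]
    exact pow_le_pow_left₀ (by positivity) hm1 r
  have hm3 : (5 + 2 * Real.log K) ^ r * (N / L) ≤ N * (1 / (R ^ J) ^ r) := by
    have hKR : (1 : ℝ) ≤ K := by exact_mod_cast hK3
    have hKN : (K : ℝ) ≤ N := by
      calc (K : ℝ) ≤ v ^ 4 := hK1
        _ ≤ v ^ 16 := pow_le_pow_right₀ h16 (by norm_num)
        _ = N := e1.symm
    have h1 : (5 + 2 * Real.log K) ^ r ≤ (N : ℝ) ^ (c₃ / 2) := by
      refine le_trans (pow_le_pow_left₀ ?_ ?_ r) hl4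
      · have := Real.log_nonneg hKR
        positivity
      · have := Real.log_le_log (by linarith) hKN
        linarith
    have h2 : (R ^ J) ^ r ≤ (N : ℝ) ^ (c₃ / 2) := by
      calc (R ^ J) ^ r ≤ ((N : ℝ) ^ c₄) ^ r := pow_le_pow_left₀ hRJ0.le hRJ r
        _ = (N : ℝ) ^ (c₄ * r) := by rw [← Real.rpow_natCast, ← Real.rpow_mul hN0.le]
        _ ≤ (N : ℝ) ^ (c₃ / 2) := Real.rpow_le_rpow_of_exponent_le hNR (by linarith)
    have h3 : L = (N : ℝ) ^ (c₃ / 2) * (N : ℝ) ^ (c₃ / 2) := by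
      rw [← Real.rpow_add hN0, add_halves]
    have h4 : 0 < (N : ℝ) ^ (c₃ / 2) := by positivity
    calc (5 + 2 * Real.log K) ^ r * (N / L) ≤ (N : ℝ) ^ (c₃ / 2) * (N / L) :=
          mul_le_mul_of_nonneg_right h1 hT0
      _ = N * (1 / (N : ℝ) ^ (c₃ / 2)) := by
          rw [h3]
          field_simp
      _ ≤ N * (1 / (R ^ J) ^ r) := by
          apply mul_le_mul_of_nonneg_left _ hN0.le
          exact one_div_le_one_div_of_le (by positivity) h2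
  have hRr1 : 1 ≤ R ^ r := one_le_pow₀ (by linarith)
  have hcastR : (((b ^ k) ^ r - 1 : ℕ) : ℝ) = R ^ r - 1 := by
    rw [Nat.cast_sub (Nat.one_le_pow _ _ (Nat.pow_pos (by omega)))]
    push_cast
    rfl
  have hm4 : ∑ n ∈ Ex, (ArithmeticFunction.vonMangoldt n : ℝ) ≤
      (1 - 1 / R ^ r) ^ J * ((C₀ * 2 ^ r + 1) * N) := by
    refine hwin.trans ?_
    rw [hcastR]
    have h1 : 0 ≤ (R ^ r - 1) ^ J := pow_nonneg (by linarith) J
    calc (R ^ r - 1) ^ J * (C₀ * N * (1 / ((b : ℝ) ^ k) ^ J + 2 / √K) ^ r +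
          (5 + 2 * Real.log K) ^ r * (N / L)) ≤
          (R ^ r - 1) ^ J * (C₀ * N * (2 ^ r / (R ^ J) ^ r) + N * (1 / (R ^ J) ^ r)) :=
          mul_le_mul_of_nonneg_left (add_le_add hm2 hm3) h1
      _ = (1 - 1 / R ^ r) ^ J * ((C₀ * 2 ^ r + 1) * N) := by
          have h2 : (1 - 1 / R ^ r) = (R ^ r - 1) / R ^ r := by
            rw [sub_div, div_self (by positivity)]
          have h3 : (R ^ J) ^ r = (R ^ r) ^ J := pow_right_comm R J r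
          rw [h2, div_pow, h3]
          field_simp
  have hm5 : (1 - 1 / R ^ r) ^ J ≤ Real.exp 1 * (N : ℝ) ^ (-(c₄ / Δ)) := by
    have h0 : 0 ≤ 1 - 1 / R ^ r := by
      rw [sub_nonneg, div_le_one (by positivity)]
      exact hRr1
    have h1 : 1 - 1 / R ^ r ≤ Real.exp (-(1 / R ^ r)) := by
      have := Real.add_one_le_exp (-(1 / R ^ r))
      linarith
    calc (1 - 1 / R ^ r) ^ J ≤ Real.exp (-(1 / R ^ r)) ^ J := pow_le_pow_left₀ h0 h1 J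
      _ = Real.exp (J * (-(1 / R ^ r))) := by rw [← Real.exp_nat_mul]
      _ ≤ Real.exp (1 + Real.log N * (-(c₄ / Δ))) := by
          apply Real.exp_le_exp.2
          have h2 : c₄ / Δ = c₄ / Real.log R * (1 / R ^ r) := by
            rw [hΔ, hlogR, hR, ← pow_mul, div_mul_div_comm, mul_one]
            congr 1
            ring
          have h3 : 0 ≤ 1 / R ^ r := by positivity
          have h4 : 1 / R ^ r ≤ 1 := by
            rw [div_le_one (by positivity)]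
            exact hRr1
          have h5 := mul_le_mul_of_nonneg_right hJ2 h3
          have h6 : (c₄ * Real.log N / Real.log R - 1) * (1 / R ^ r) =
              Real.log N * (c₄ / Real.log R * (1 / R ^ r)) - 1 / R ^ r := by ring
          rw [h2]
          linarith
      _ = _ := by
          rw [Real.exp_add, Real.rpow_def_of_pos hN0]
  have hm6 : (Ex.card : ℝ) * (1 / 2) ≤ ∑ n ∈ Ex, (ArithmeticFunction.vonMangoldt n : ℝ) := by
    rw [← nsmul_eq_mul, ← sum_const]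
    refine sum_le_sum fun p hp => ?_
    have hpp := (hEx p hp).1
    rw [ArithmeticFunction.vonMangoldt_apply_prime hpp]
    have h1 := Real.log_two_gt_d9
    have h2 : Real.log 2 ≤ Real.log p := Real.log_le_log (by norm_num) (by exact_mod_cast hpp.two_le)
    linarith
  have hfinal : (Ex.card : ℝ) ≤ 2 * (Real.exp 1 * (C₀ * 2 ^ r + 1)) * (N : ℝ) ^ (1 - c₄ / Δ) := by
    have h1 : (N : ℝ) ^ (1 - c₄ / Δ) = N * (N : ℝ) ^ (-(c₄ / Δ)) := by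
      rw [sub_eq_add_neg, Real.rpow_add hN0, Real.rpow_one]
    have h2 := mul_le_mul_of_nonneg_right hm5 (show 0 ≤ (C₀ * 2 ^ r + 1) * N by positivity)
    rw [h1]
    calc (Ex.card : ℝ) = 2 * ((Ex.card : ℝ) * (1 / 2)) := by ring
      _ ≤ 2 * (Real.exp 1 * (N : ℝ) ^ (-(c₄ / Δ)) * ((C₀ * 2 ^ r + 1) * N)) := by linarith
      _ = _ := by ring
  calc (Ex.card : ℝ) ≤ 2 * (Real.exp 1 * (C₀ * 2 ^ r + 1)) * (N : ℝ) ^ (1 - c₄ / Δ) := hfinal
    _ ≤ C₁ * (N : ℝ) ^ (1 - c₄ / Δ) := by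
        gcongr
        linarith
    _ = C₁ * 1 * 1 * (N : ℝ) ^ (1 - c₄ / Δ) := by ring
    _ ≤ C₁ * H * b * (N : ℝ) ^ (1 - c₄ / Δ) := by gcongr <;> linarith

end Pool.Agent.V5helper26.BP
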