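import Mathlib
import Pool.Agent.V5helper26.BP.Main

/-!
# Blocks of digits of the values of polynomials at primes: all blocks in all bases
-/

set_option autoImplicit false

namespace Pool.Agent.V5helper26.BP

open Finset Polynomial Filter Topology

/-- in base `b` the block of digits of `y_j` at the places `n + 1, …, n + k` is `W_j`, for all `j` -/
def JointlyAt {r k : ℕ} (b : ℕ) (W : Fin r → Fin k → Fin b) (y : Fin r → ℝ) (n : ℕ) : Prop :=
  ∀ (j : Fin r) (l : Fin k), ⌊(b : ℝ) ^ (n + l + 1) * y j⌋ % (b : ℤ) = (W j l : ℕ)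

lemma exists_val (b k : ℕ) (hb : 1 ≤ b) (w : Fin k → Fin b) : ∃ V : ℕ, V < b ^ k ∧
    ∀ (y : ℝ) (n : ℕ), ⌊(b : ℝ) ^ (n + k) * y⌋ % ((b : ℤ) ^ k) = (V : ℤ) →
      ∀ l : Fin k, ⌊(b : ℝ) ^ (n + l + 1) * y⌋ % (b : ℤ) = ((w l : ℕ) : ℤ) := by
  set V : Fin (b ^ k) := finFunctionFinEquiv (fun l => w l.rev) with hV
  have h1 : finFunctionFinEquiv.symm V = fun l => w l.rev := by
    rw [hV, Equiv.symm_apply_apply]
  refine ⟨V, V.2, fun y n hy l => ?_⟩
  have h2 : (V : ℕ) / b ^ (l.rev : ℕ) % b = (w l : ℕ) := by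
    have h3 := congrArg Fin.val (congrFun h1 l.rev)
    rw [Fin.rev_rev] at h3
    exact h3
  have hl := l.2
  set m : ℕ := k - ((l : ℕ) + 1) with hm
  have hrev : (l.rev : ℕ) = m := Fin.val_rev l
  rw [hrev] at h2
  have h4 := floor_div b hb (n + l + 1) m y
  have e1 : n + l + 1 + m = n + k := by omega
  rw [e1] at h4
  rw [← h4]
  push_cast
  set F := ⌊(b : ℝ) ^ (n + k) * y⌋
  have hb0 : (0 : ℤ) < b := by exact_mod_cast hb
  have h5 : F = (V : ℤ) + (b : ℤ) ^ m * ((b : ℤ) ^ (k - m) * (F / (b : ℤ) ^ k)) := by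
    have h6 := Int.emod_add_mul_ediv F ((b : ℤ) ^ k)
    rw [hy] at h6
    have e2 : (b : ℤ) ^ k = (b : ℤ) ^ m * (b : ℤ) ^ (k - m) := by
      rw [← pow_add]; congr 1; omega
    conv_lhs => rw [← h6]
    rw [← mul_assoc, ← e2]
  have e3 : (b : ℤ) ^ (k - m) = b * (b : ℤ) ^ (k - m - 1) := by
    rw [← pow_succ']; congr 1; omega
  rw [h5, Int.add_mul_ediv_left _ _ (by positivity), e3, mul_assoc, Int.add_mul_emod_self_left]
  rw [← h2]
  push_cast
  rfl

open Classical in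
/-- **All blocks in all bases** -/
theorem all_blocks (r d : ℕ) : ∃ c C : ℝ, 0 < c ∧ 0 < C ∧ ∀ x : ℝ, Irrational x →
    ∀ H : ℝ, 1 ≤ H → ∀ P : Fin r → ℝ[X], Leads x H d P → ∀ B k : ℕ, 2 ≤ B → 1 ≤ k →
    ∀ N : ℕ, 1 ≤ N →
    (({p : ℕ | p.Prime ∧ p ≤ N ∧ ∃ b : ℕ, 2 ≤ b ∧ b ≤ B ∧ ∃ W : Fin r → Fin k → Fin b,
      {n : ℕ | JointlyAt b W (fun j => (P j).eval (p : ℝ)) n}.Finite}.ncard : ℕ) : ℝ) ≤
        C * H * (B : ℝ) ^ (k * r + 2) *
          (N : ℝ) ^ (1 - c / (k * (B : ℝ) ^ (k * r) * Real.log B)) := by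
  obtain ⟨c, C₁, hc, hc1, hC₁, hmain⟩ := one_block r d
  refine ⟨c, C₁, hc, by linarith, ?_⟩
  intro x hx H hH P hP B k hB hk N hN
  have hNR : (1 : ℝ) ≤ N := by exact_mod_cast hN
  have hBR : (2 : ℝ) ≤ B := by exact_mod_cast hB
  set Ex : ℕ → (Fin r → ℕ) → Finset ℕ := fun b V => (Icc 1 N).filter (fun p : ℕ => p.Prime ∧
    {i : ℕ | ∀ j, ⌊(b : ℝ) ^ (i + k) * (P j).eval (p : ℝ)⌋ % ((b : ℤ) ^ k) = (V j : ℤ)}.Finite)
    with hEx
  set U : Finset ℕ := (Icc 2 B).biUnion (fun b =>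
    (Fintype.piFinset (fun _ : Fin r => range (b ^ k))).biUnion (fun V => Ex b V)) with hU
  have hsub : {p : ℕ | p.Prime ∧ p ≤ N ∧ ∃ b : ℕ, 2 ≤ b ∧ b ≤ B ∧ ∃ W : Fin r → Fin k → Fin b,
      {n : ℕ | JointlyAt b W (fun j => (P j).eval (p : ℝ)) n}.Finite} ⊆ (U : Set ℕ) := by
    rintro p ⟨hp, hpN, b, hb2, hbB, W, hW⟩
    choose V hV1 hV2 using fun j => exists_val b k (by omega) (W j)
    rw [mem_coe, hU, mem_biUnion]
    refine ⟨b, mem_Icc.2 ⟨hb2, hbB⟩, ?_⟩
    rw [mem_biUnion]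
    refine ⟨V, Fintype.mem_piFinset.2 fun j => mem_range.2 (hV1 j), ?_⟩
    rw [hEx, mem_filter]
    refine ⟨mem_Icc.2 ⟨hp.one_le, hpN⟩, hp, hW.subset ?_⟩
    intro i hi j l
    exact hV2 j _ i (hi j) l
  have hcard1 : ({p : ℕ | p.Prime ∧ p ≤ N ∧ ∃ b : ℕ, 2 ≤ b ∧ b ≤ B ∧ ∃ W : Fin r → Fin k → Fin b,
      {n : ℕ | JointlyAt b W (fun j => (P j).eval (p : ℝ)) n}.Finite}.ncard) ≤ U.card := by
    rw [← Set.ncard_coe_finset]
    exact Set.ncard_le_ncard hsub (Finset.finite_toSet U)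
  set Δ : ℕ → ℝ := fun b => k * (b : ℝ) ^ (k * r) * Real.log b with hΔ
  have hkR : (1 : ℝ) ≤ k := by exact_mod_cast hk
  have hone : ∀ b ∈ Icc 2 B, ∀ V ∈ Fintype.piFinset (fun _ : Fin r => range (b ^ k)),
      ((Ex b V).card : ℝ) ≤ C₁ * H * B * (N : ℝ) ^ (1 - c / Δ B) := by
    intro b hb V hV
    rw [mem_Icc] at hb
    have hbR : (2 : ℝ) ≤ b := by exact_mod_cast hb.1
    have hbBR : (b : ℝ) ≤ B := by exact_mod_cast hb.2
    have h1 := hmain x hx H hH P hP b k hb.1 hk V (fun j => mem_range.1 (Fintype.mem_piFinset.1 hV j))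
      N hN (Ex b V) (fun p hp => by
        rw [hEx, mem_filter, mem_Icc] at hp
        exact ⟨hp.2.1, hp.1.2⟩) (fun p hp => by
        rw [hEx, mem_filter, mem_Icc] at hp
        exact hp.2.2)
    refine h1.trans ?_
    have hlogb : 0 < Real.log b := Real.log_pos (by linarith)
    have hΔb : 0 < Δ b := by
      rw [hΔ]; positivity
    have hΔB : Δ b ≤ Δ B := by
      rw [hΔ]
      simp only
      have h2 : Real.log b ≤ Real.log B := Real.log_le_log (by linarith) hbBR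
      gcongr
    have h3 : (N : ℝ) ^ (1 - c / Δ b) ≤ (N : ℝ) ^ (1 - c / Δ B) := by
      apply Real.rpow_le_rpow_of_exponent_le hNR
      have := div_le_div_of_nonneg_left hc.le hΔb hΔB
      linarith
    have hC₁0 : 0 ≤ C₁ := by linarith
    calc C₁ * H * b * (N : ℝ) ^ (1 - c / Δ b) ≤ C₁ * H * B * (N : ℝ) ^ (1 - c / Δ B) := by
          gcongr
      _ = _ := rfl
  have hcard2 : (U.card : ℝ) ≤ B * ((B : ℝ) ^ (k * r) * (C₁ * H * B * (N : ℝ) ^ (1 - c / Δ B))) := by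
    have hnn : 0 ≤ C₁ * H * B * (N : ℝ) ^ (1 - c / Δ B) := by positivity
    have h1 : U.card ≤ ∑ b ∈ Icc 2 B, ∑ V ∈ Fintype.piFinset (fun _ : Fin r => range (b ^ k)),
        (Ex b V).card :=
      card_biUnion_le.trans (sum_le_sum fun b _ => card_biUnion_le)
    calc (U.card : ℝ) ≤ ∑ b ∈ Icc 2 B, ∑ V ∈ Fintype.piFinset (fun _ : Fin r => range (b ^ k)),
          ((Ex b V).card : ℝ) := by exact_mod_cast h1
      _ ≤ ∑ b ∈ Icc 2 B, (B : ℝ) ^ (k * r) * (C₁ * H * B * (N : ℝ) ^ (1 - c / Δ B)) := by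
          refine sum_le_sum fun b hb => ?_
          refine (sum_le_sum fun V hV => hone b hb V hV).trans ?_
          rw [sum_const, nsmul_eq_mul, Fintype.card_piFinset]
          apply mul_le_mul_of_nonneg_right _ hnn
          rw [mem_Icc] at hb
          have hbBR : (b : ℝ) ≤ B := by exact_mod_cast hb.2
          simp only [card_range, prod_const, card_univ, Fintype.card_fin]
          push_cast
          rw [← pow_mul]
          exact pow_le_pow_left₀ (Nat.cast_nonneg _) hbBR _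
      _ = ((Icc 2 B).card : ℝ) * ((B : ℝ) ^ (k * r) * (C₁ * H * B * (N : ℝ) ^ (1 - c / Δ B))) := by
          rw [sum_const, nsmul_eq_mul]
      _ ≤ B * ((B : ℝ) ^ (k * r) * (C₁ * H * B * (N : ℝ) ^ (1 - c / Δ B))) := by
          apply mul_le_mul_of_nonneg_right _ (by positivity)
          rw [Nat.card_Icc]
          have : B + 1 - 2 ≤ B := by omega
          exact_mod_cast this
  calc _ ≤ (U.card : ℝ) := by exact_mod_cast hcard1
    _ ≤ _ := hcard2
    _ = _ := by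
      rw [hΔ, pow_add]
      ring

/-- the numbers `y_j + h_j(p) x` -/
lemma leads_int (x : ℝ) (hx : Irrational x) {r : ℕ} (h : Fin r → ℤ[X])
    (hind : ∀ g : Fin r → ℤ, g ≠ 0 → 1 ≤ (∑ j, C (g j) * h j).natDegree) (y : Fin r → ℝ) :
    Leads x (∑ j, ∑ i ∈ range ((∑ j, (h j).natDegree) + 1), (((h j).coeff i).natAbs : ℝ) + 1)
      (∑ j, (h j).natDegree) (fun j => C (y j) + C x * (h j).map (Int.castRingHom ℝ)) := by
  set d : ℕ := ∑ j, (h j).natDegree with hd
  set H : ℝ := ∑ j, ∑ i ∈ range (d + 1), (((h j).coeff i).natAbs : ℝ) with hH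
  have hx0 : x ≠ 0 := hx.ne_zero
  intro g hg0
  set P : Fin r → ℝ[X] := fun j => C (y j) + C x * (h j).map (Int.castRingHom ℝ) with hP
  set q : ℤ[X] := ∑ j, C (g j) * h j with hq
  have hq1 : 1 ≤ q.natDegree := hind g hg0
  have hqd : q.natDegree ≤ d := by
    refine natDegree_sum_le_of_forall_le _ _ fun j _ => ?_
    refine (natDegree_C_mul_le _ _).trans ?_
    exact single_le_sum (f := fun j => (h j).natDegree) (fun _ _ => Nat.zero_le _) (mem_univ j)
  have e1 : ∑ j, C (g j : ℝ) * P j = C (∑ j, (g j : ℝ) * y j) + C x * q.map (Int.castRingHom ℝ) := by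
    rw [hq, Polynomial.map_sum, mul_sum, map_sum, ← sum_add_distrib]
    refine sum_congr rfl fun j _ => ?_
    rw [hP, Polynomial.map_mul, Polynomial.map_C, map_mul, eq_intCast (Int.castRingHom ℝ)]
    ring
  have hinj : Function.Injective (Int.castRingHom ℝ) := Int.cast_injective
  have e2 : (q.map (Int.castRingHom ℝ)).natDegree = q.natDegree := natDegree_map_eq_of_injective hinj q
  have e3 : (C x * q.map (Int.castRingHom ℝ)).natDegree = q.natDegree := by
    rw [natDegree_C_mul hx0, e2]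
  have e4 : (∑ j, C (g j : ℝ) * P j).natDegree = q.natDegree := by
    rw [e1, natDegree_C_add, e3]
  have e5 : (∑ j, C (g j : ℝ) * P j).leadingCoeff = (q.leadingCoeff : ℝ) * x := by
    rw [leadingCoeff, e4, e1, coeff_add, coeff_C, if_neg (by omega), zero_add, coeff_C_mul, coeff_map,
      leadingCoeff, eq_intCast, mul_comm]
  refine ⟨by rw [e4]; exact hq1, by rw [e4]; exact hqd, q.leadingCoeff, ?_, ?_, ?_⟩
  · intro h0
    rw [leadingCoeff_eq_zero] at h0
    rw [h0, natDegree_zero] at hq1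
    omega
  · have hco : ∀ j, |((h j).coeff q.natDegree : ℝ)| ≤ H := by
      intro j
      have h3 := single_le_sum (f := fun i => (((h j).coeff i).natAbs : ℝ))
        (fun _ _ => Nat.cast_nonneg _) (mem_range.2 (Nat.lt_succ_of_le hqd))
      have h4 := single_le_sum (f := fun j => ∑ i ∈ range (d + 1), (((h j).coeff i).natAbs : ℝ))
        (fun _ _ => sum_nonneg fun _ _ => Nat.cast_nonneg _) (mem_univ j)
      refine le_trans (le_of_eq ?_) (h3.trans h4)
      rw [Nat.cast_natAbs, Int.cast_abs]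
    rw [leadingCoeff, hq, finset_sum_coeff]
    push_cast
    refine (abs_sum_le_sum_abs _ _).trans ?_
    rw [mul_sum]
    refine sum_le_sum fun j _ => ?_
    rw [coeff_C_mul]
    push_cast
    rw [abs_mul, mul_comm]
    have := hco j
    rw [← hq]
    apply mul_le_mul_of_nonneg_right _ (abs_nonneg _)
    linarith
  · rw [e5]

end Pool.Agent.V5helper26.BP
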